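import Mathlib

set_option autoImplicit false

/-!
Definitions for problem MP_f75e32_co.  The set `[n] = {1, …, n}` is modelled by `Fin n`, the
element `i` of `[n]` being the index `i - 1` of `Fin n`.  Subsets of `[n-1]` are finite sets of
natural numbers and are not shifted.  Products of permutations are `(π * σ) i = π (σ i)`.
-/

namespace Pool.Agent.Work.MP_f75e32_co

/-- The descent set `{i ∈ [n-1] : π(i) > π(i+1)}` of a permutation `π` of `[n]`
(`π(i)` is the value of `π` at the index `i - 1`, and `π(i+1)` its value at the index `i`). -/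
def Des {n : ℕ} (π : Equiv.Perm (Fin n)) : Finset ℕ :=
  (Finset.Icc 1 (n - 1)).filter
    (fun i => ∃ (h₁ : i - 1 < n) (h₂ : i < n), π ⟨i, h₂⟩ < π ⟨i - 1, h₁⟩)

/-- Gessel's fundamental quasisymmetric function `F_{n,D}`, as a formal power series in the
variables `x_0, x_1, x_2, …`: the coefficient of a monomial with exponent vector `e` is the number
of sequences `i_1 ≤ i_2 ≤ ⋯ ≤ i_n`, with `i_j < i_{j+1}` for all `j ∈ D`, such that
`x_{i_1} x_{i_2} ⋯ x_{i_n}` is that monomial. -/
noncomputable def fundamental (n : ℕ) (D : Finset ℕ) : MvPowerSeries ℕ ℤ := fun e =>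
  ({i : Fin n → ℕ | (∀ a b : Fin n, a ≤ b → i a ≤ i b) ∧
    (∀ j ∈ D, ∀ (h₁ : j - 1 < n) (h₂ : j < n), i ⟨j - 1, h₁⟩ < i ⟨j, h₂⟩) ∧
    ∑ a, Finsupp.single (i a) 1 = e}.ncard : ℤ)

/-- `𝒬(A) = ∑_{π ∈ A} F_{n, Des(π)}`, the sum over a finite multiset `A` of permutations, counted
with multiplicity. -/
noncomputable def QSym {n : ℕ} (A : Multiset (Equiv.Perm (Fin n))) : MvPowerSeries ℕ ℤ :=
  (A.map (fun π => fundamental n (Des π))).sum

/-- The multiset `{ab : a ∈ A, b ∈ B}` of `|A| |B|` products. -/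
def mulMultiset {n : ℕ} (A B : Finset (Equiv.Perm (Fin n))) : Multiset (Equiv.Perm (Fin n)) :=
  (A ×ˢ B).val.map (fun p => p.1 * p.2)

open Classical in
/-- The cyclic subgroup of `S_n` generated by the `n`-cycle `(1 2 ⋯ n)`. -/
noncomputable def cyclicGroup (n : ℕ) : Finset (Equiv.Perm (Fin n)) :=
  Finset.univ.filter (fun g => g ∈ Subgroup.zpowers (finRotate n))

/-- The inverse descent class `{π ∈ S_{n-1} : Des(π⁻¹) = J}`, viewed as a subset of `S_n` by
letting the permutations fix the last element `n`. -/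
noncomputable def invDescentClass (n : ℕ) (J : Finset ℕ) : Finset (Equiv.Perm (Fin n)) :=
  ((Finset.univ : Finset (Equiv.Perm (Fin (n - 1)))).filter (fun π => Des π⁻¹ = J)).image
    (fun π => π.viaEmbedding (Fin.castLEEmb (Nat.sub_le n 1)))

end Pool.Agent.Work.MP_f75e32_co
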