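import Mathlib
import Pool.Agent.Work.MP_f75e32_co.Defs

set_option autoImplicit false

namespace Pool.Agent.Work.MP_f75e32_co

open Finset

lemma mem_Des_iff {m : ℕ} (π : Equiv.Perm (Fin (m + 1))) (a : ℕ) :
    a ∈ Des π ↔ ∃ i : Fin m, a = (i : ℕ) + 1 ∧ π i.succ < π i.castSucc := by
  unfold Des
  simp only [Finset.mem_filter, Finset.mem_Icc]
  constructor
  · rintro ⟨⟨h1, h2⟩, h3, h4, h5⟩
    refine ⟨⟨a - 1, by omega⟩, by simp; omega, ?_⟩
    have e1 : (⟨a, h4⟩ : Fin (m + 1)) = (⟨a - 1, by omega⟩ : Fin m).succ := by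
      ext; simp; omega
    have e2 : (⟨a - 1, h3⟩ : Fin (m + 1)) = (⟨a - 1, by omega⟩ : Fin m).castSucc := by
      ext; simp
    rw [← e1, ← e2]; exact h5
  · rintro ⟨i, rfl, h⟩
    have := i.isLt
    refine ⟨⟨by omega, by omega⟩, by omega, by omega, ?_⟩
    have e1 : (⟨(i : ℕ) + 1, by omega⟩ : Fin (m + 1)) = i.succ := by
      ext; simp
    have e2 : (⟨(i : ℕ) + 1 - 1, by omega⟩ : Fin (m + 1)) = i.castSucc := by
      ext; simp
    rw [e1, e2]; exact h

/-- number of elements of `K` that are at most `v` -/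
def blk {m : ℕ} (K : Finset ℕ) (v : Fin (m + 1)) : ℕ := (K.filter (fun i => i ≤ (v : ℕ))).card

lemma blk_mono {m : ℕ} (K : Finset ℕ) : Monotone (blk K : Fin (m + 1) → ℕ) := by
  intro a b hab
  apply Finset.card_le_card
  intro i hi
  simp only [Finset.mem_filter] at hi ⊢
  exact ⟨hi.1, hi.2.trans (by exact_mod_cast hab)⟩

lemma blk_lt_of_mem {m : ℕ} {K : Finset ℕ} {v w : Fin (m + 1)} {i : ℕ} (hi : i ∈ K)
    (h1 : (v : ℕ) < i) (h2 : i ≤ (w : ℕ)) : blk K v < blk K w := by
  apply Finset.card_lt_card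
  constructor
  · intro j hj
    simp only [Finset.mem_filter] at hj ⊢
    exact ⟨hj.1, by omega⟩
  · intro h
    have : i ∈ K.filter (fun j => j ≤ (v : ℕ)) := h (by simp [hi, h2])
    simp only [Finset.mem_filter] at this
    omega

lemma blk_succ_eq_iff {m : ℕ} {K : Finset ℕ} (i : Fin m) :
    blk K i.castSucc = blk K i.succ ↔ ((i : ℕ) + 1) ∉ K := by
  constructor
  · intro h hi
    have := blk_lt_of_mem (v := i.castSucc) (w := i.succ) hi (by simp) (by simp)
    omega
  · intro h
    unfold blk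
    congr 1
    ext j
    simp only [Finset.mem_filter, Fin.val_castSucc, Fin.val_succ]
    constructor
    · rintro ⟨a, b⟩; exact ⟨a, by omega⟩
    · rintro ⟨a, b⟩
      refine ⟨a, ?_⟩
      rcases Nat.lt_or_ge j ((i : ℕ) + 1) with h' | h'
      · omega
      · have : j = (i : ℕ) + 1 := by omega
        exact absurd (this ▸ a) h

/-- `Des w ⊆ I` means that `w` is increasing on the blocks of `I`. -/
lemma des_subset_iff {m : ℕ} (w : Equiv.Perm (Fin (m + 1))) (I : Finset ℕ) :
    Des w ⊆ I ↔ StrictMono (fun i => toLex (blk I i, w i)) := by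
  rw [Fin.strictMono_iff_lt_succ]
  constructor
  · intro h i
    rw [Prod.Lex.toLex_lt_toLex]
    by_cases hi : ((i : ℕ) + 1) ∈ I
    · left
      exact blk_lt_of_mem hi (by simp) (by simp)
    · right
      refine ⟨(blk_succ_eq_iff i).2 hi, ?_⟩
      by_contra hc
      have hc' : w i.succ < w i.castSucc := by
        rcases lt_trichotomy (w i.succ) (w i.castSucc) with h1 | h1 | h1
        · exact h1
        · exfalso
          have := w.injective h1
          exact absurd this (by simp [Fin.ext_iff])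
        · exact absurd h1 hc
      exact hi (h ((mem_Des_iff w _).2 ⟨i, rfl, hc'⟩))
  · intro h a ha
    obtain ⟨i, rfl, hi⟩ := (mem_Des_iff w a).1 ha
    by_contra hc
    have h1 := h i
    rw [Prod.Lex.toLex_lt_toLex] at h1
    have h2 := (blk_succ_eq_iff i).2 hc
    rcases h1 with h1 | h1
    · exact absurd h1 (by simp only [h2, lt_irrefl, not_false_iff])
    · exact absurd h1.2 (not_lt.2 hi.le)

lemma lt_of_des_subset {m : ℕ} {w : Equiv.Perm (Fin (m + 1))} {I : Finset ℕ}
    (h : Des w ⊆ I) {i j : Fin (m + 1)} (hij : i < j) (hb : blk I i = blk I j) : w i < w j := by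
  have := (des_subset_iff w I).1 h hij
  simp only [Prod.Lex.toLex_lt_toLex] at this
  rcases this with h1 | h1
  · omega
  · exact h1.2

/-- `Des w ⊆ I` iff `w` is the stable sort of the word `blk I ∘ w⁻¹`. -/
lemma des_subset_iff_sort {m : ℕ} (w : Equiv.Perm (Fin (m + 1))) (I : Finset ℕ) :
    Des w ⊆ I ↔ w = Tuple.sort (blk I ∘ ⇑w⁻¹) := by
  rw [Tuple.eq_sort_iff]
  constructor
  · intro h
    refine ⟨?_, ?_⟩
    · have : (blk I ∘ ⇑w⁻¹) ∘ ⇑w = (blk I : Fin (m + 1) → ℕ) := by
        ext i; simp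
      rw [this]; exact blk_mono I
    · intro i j hij hb
      exact lt_of_des_subset h hij (by simpa using hb)
  · rintro ⟨-, h2⟩
    rw [des_subset_iff]
    intro i j hij
    rw [Prod.Lex.toLex_lt_toLex]
    rcases (blk_mono I hij.le).lt_or_eq with h | h
    · exact Or.inl h
    · refine Or.inr ⟨h, h2 i j hij ?_⟩
      simpa [Function.comp] using h

/-- the word of a stable sort -/
lemma word_of_sort {m : ℕ} (I : Finset ℕ) (σ : Equiv.Perm (Fin (m + 1))) (g : Fin (m + 1) → ℕ)
    (hg : g = blk I ∘ σ) : blk I ∘ ⇑(Tuple.sort g)⁻¹ = g ∧ Des (Tuple.sort g) ⊆ I := by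
  have h1 : g ∘ ⇑(Tuple.sort g) = blk I := by
    have e1 : g ∘ ⇑(Tuple.sort g) = blk I ∘ ⇑(σ * Tuple.sort g) := by
      rw [hg]; rfl
    have e2 : (blk I : Fin (m + 1) → ℕ) ∘ ⇑(σ * Tuple.sort g)
        = blk I ∘ ⇑(1 : Equiv.Perm (Fin (m + 1))) := by
      apply Tuple.unique_monotone
      · rw [← e1]; exact Tuple.monotone_sort g
      · simpa using blk_mono I
    rw [e1, e2]; rfl
  have h2 : blk I ∘ ⇑(Tuple.sort g)⁻¹ = g := by
    rw [← h1]; ext i; simp
  refine ⟨h2, ?_⟩
  rw [des_subset_iff_sort, h2]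

/-- comparing positions in the sorted word -/
lemma inv_lt_inv_iff {m : ℕ} {w : Equiv.Perm (Fin (m + 1))} {I : Finset ℕ} (h : Des w ⊆ I)
    (x y : Fin (m + 1)) : w⁻¹ x < w⁻¹ y ↔
      (blk I (w⁻¹ x) < blk I (w⁻¹ y) ∨ (blk I (w⁻¹ x) = blk I (w⁻¹ y) ∧ x < y)) := by
  have := ((des_subset_iff w I).1 h).lt_iff_lt (a := w⁻¹ x) (b := w⁻¹ y)
  rw [← this, Prod.Lex.toLex_lt_toLex]
  simp

/-- the multiset of (block, letter) pairs of a word -/
def pairs {m : ℕ} (B g : Fin (m + 1) → ℕ) : Multiset (ℕ × ℕ) :=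
  (Finset.univ : Finset (Fin (m + 1))).val.map (fun v => (B v, g v))

lemma mem_pairs {m : ℕ} {B g : Fin (m + 1) → ℕ} {x : ℕ × ℕ} :
    x ∈ pairs B g ↔ ∃ v, B v = x.1 ∧ g v = x.2 := by
  unfold pairs
  simp only [Multiset.mem_map, Finset.mem_val, Finset.mem_univ, true_and]
  constructor
  · rintro ⟨v, rfl⟩; exact ⟨v, rfl, rfl⟩
  · rintro ⟨v, h1, h2⟩; exact ⟨v, by ext <;> simp [h1, h2]⟩

lemma pairs_comp {m : ℕ} {B g : Fin (m + 1) → ℕ} (σ : Equiv.Perm (Fin (m + 1)))
    (hσ : B ∘ σ = B) : pairs B (g ∘ σ) = pairs B g := by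
  unfold pairs
  have : (Finset.univ : Finset (Fin (m + 1))).val.map (fun v => (B v, (g ∘ σ) v))
      = ((Finset.univ : Finset (Fin (m + 1))).val.map σ).map (fun v => (B v, g v)) := by
    rw [Multiset.map_map]
    apply Multiset.map_congr rfl
    intro v _
    have := congrFun hσ v
    simp only [Function.comp] at this ⊢
    rw [this]
  rw [this]
  congr 1
  have h := Finset.map_univ_equiv σ
  have := congrArg Finset.val h
  simp only [Finset.map_val] at this
  exact this

/-- swapping two entries of a word -/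
lemma pairs_swap {m : ℕ} (B h : Fin (m + 1) → ℕ) (a b : Fin (m + 1)) :
    pairs B (h ∘ Equiv.swap a b) + {(B a, h a), (B b, h b)}
      = pairs B h + {(B a, h b), (B b, h a)} := by
  by_cases hab : a = b
  · subst hab
    simp
  · unfold pairs
    have hu : (Finset.univ : Finset (Fin (m + 1)))
        = insert a (insert b ((Finset.univ.erase a).erase b)) := by
      ext x; simp; tauto
    have ha : a ∉ insert b ((Finset.univ.erase a).erase b) := by
      simp [hab]
    have hb : b ∉ ((Finset.univ.erase a).erase b : Finset (Fin (m + 1))) := by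
      simp
    rw [hu, Finset.insert_val_of_notMem ha, Finset.insert_val_of_notMem hb]
    simp only [Multiset.map_cons, Function.comp, Equiv.swap_apply_left, Equiv.swap_apply_right]
    have hc : ((Finset.univ.erase a).erase b).val.map (fun v => (B v, h (Equiv.swap a b v)))
        = ((Finset.univ.erase a).erase b).val.map (fun v => (B v, h v)) := by
      apply Multiset.map_congr rfl
      intro v hv
      simp only [Finset.mem_val, Finset.mem_erase, Finset.mem_univ, and_true] at hv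
      rw [Equiv.swap_apply_of_ne_of_ne hv.2 hv.1]
    rw [hc]
    set M := ((Finset.univ.erase a).erase b).val.map (fun v => (B v, h v))
    have e1 : ({(B a, h a), (B b, h b)} : Multiset (ℕ × ℕ)) = {(B a, h a)} + {(B b, h b)} := rfl
    have e2 : ({(B a, h b), (B b, h a)} : Multiset (ℕ × ℕ)) = {(B a, h b)} + {(B b, h a)} := rfl
    rw [e1, e2]
    simp only [← Multiset.singleton_add]
    abel

/-- two words with the same pairs, both sorted by an injective key within the blocks, coincide -/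
lemma eq_of_pairs_eq {m : ℕ} {Γ : Type*} [LinearOrder Γ] {B g h : Fin (m + 1) → ℕ} (κ : ℕ → Γ)
    (hκ : Function.Injective κ) (hp : pairs B g = pairs B h)
    (hg : Monotone (fun v => toLex (B v, κ (g v)))) (hh : Monotone (fun v => toLex (B v, κ (h v)))) :
    g = h := by
  have e : (Finset.univ : Finset (Fin (m + 1))).val.map (fun v => toLex (B v, κ (g v)))
      = (Finset.univ : Finset (Fin (m + 1))).val.map (fun v => toLex (B v, κ (h v))) := by
    have := congrArg (Multiset.map (fun p : ℕ × ℕ => toLex (p.1, κ p.2))) hp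
    unfold pairs at this
    rw [Multiset.map_map, Multiset.map_map] at this
    exact this
  rw [Fin.univ_val_map, Fin.univ_val_map, Multiset.coe_eq_coe] at e
  have e2 := e.eq_of_pairwise' hg.sortedLE_ofFn.pairwise hh.sortedLE_ofFn.pairwise
  have e3 := List.ofFn_injective e2
  ext v
  have := congrFun e3 v
  simp only [EmbeddingLike.apply_eq_iff_eq, Prod.mk.injEq] at this
  exact hκ this.2

/-- sorting a word inside the blocks -/
lemma exists_sorted {m : ℕ} {Γ : Type*} [LinearOrder Γ] {B : Fin (m + 1) → ℕ} (hB : Monotone B)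
    (g : Fin (m + 1) → ℕ) (κ : ℕ → Γ) :
    ∃ τ : Equiv.Perm (Fin (m + 1)), B ∘ τ = B ∧
      Monotone (fun v => toLex (B v, κ (g (τ v)))) := by
  set F : Fin (m + 1) → ℕ ×ₗ Γ := fun v => toLex (B v, κ (g v)) with hF
  have hs : Monotone (F ∘ Tuple.sort F) := Tuple.monotone_sort F
  have h1 : B ∘ (Tuple.sort F) = B := by
    have : B ∘ (Tuple.sort F) = B ∘ (1 : Equiv.Perm (Fin (m + 1))) := by
      apply Tuple.unique_monotone
      · intro a b hab
        have := hs hab
        simp only [hF, Function.comp, Prod.Lex.toLex_le_toLex] at this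
        rcases this with h | h
        · exact h.le
        · exact h.1.le
      · simpa using hB
    exact this
  refine ⟨Tuple.sort F, h1, ?_⟩
  intro a b hab
  have := hs hab
  simp only [hF, Function.comp] at this
  have ha := congrFun h1 a
  have hb := congrFun h1 b
  simp only [Function.comp] at ha hb
  rw [ha, hb] at this
  exact this


/-! ### arithmetic of rotations -/

lemma rot_lt_iff {m : ℕ} (x y p k : Fin (m + 1)) (hp : p + k = Fin.last m) (hx : x ≠ p)
    (hy : y ≠ p) :
    x + k < y + k ↔ (p < x ∧ y < p) ∨ ((p < x ↔ p < y) ∧ x < y) := by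
  have hp' := congrArg Fin.val hp
  have hx' : (x : ℕ) ≠ p := fun h => hx (Fin.ext h)
  have hy' : (y : ℕ) ≠ p := fun h => hy (Fin.ext h)
  have h1 := x.isLt
  have h2 := y.isLt
  have h3 := p.isLt
  have h4 := k.isLt
  simp only [Fin.lt_def, Fin.val_add_eq_ite, Fin.val_last] at *
  split_ifs at * <;> omega

lemma rot_lt_last {m : ℕ} {v k : Fin (m + 1)} (h : v < -k) : ¬ (v + k < Fin.last m + k) := by
  have h1 := v.isLt
  have h4 := k.isLt
  rw [Fin.lt_def] at h
  rw [Fin.lt_def]
  rw [Fin.val_neg'] at h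
  simp only [Fin.val_add_eq_ite, Fin.val_last]
  rcases Nat.eq_zero_or_pos (k : ℕ) with h0 | h0
  · rw [h0] at h; simp at h
  · rw [Nat.mod_eq_of_lt (by omega)] at h
    split_ifs <;> omega

lemma lt_neg_of_rot {m : ℕ} {v k : Fin (m + 1)} (h : Fin.last m + k < v + k) : v < -k := by
  have h1 := v.isLt
  have h4 := k.isLt
  rw [Fin.lt_def] at h
  rw [Fin.lt_def]
  rw [Fin.val_neg']
  simp only [Fin.val_add_eq_ite, Fin.val_last] at h
  rcases Nat.eq_zero_or_pos (k : ℕ) with h0 | h0
  · rw [h0] at h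
    split_ifs at h <;> omega
  · rw [Nat.mod_eq_of_lt (by omega)]
    split_ifs at h <;> omega

lemma rot_succ_lt_iff {m : ℕ} (i : Fin m) (k : Fin (m + 1)) :
    i.castSucc + k < i.succ + k ↔ i.succ ≠ -k := by
  have h1 := i.isLt
  have h4 := k.isLt
  rw [Ne, Fin.ext_iff, Fin.val_neg', Fin.lt_def]
  simp only [Fin.val_add_eq_ite, Fin.val_castSucc, Fin.val_succ]
  rcases Nat.eq_zero_or_pos (k : ℕ) with h0 | h0
  · rw [h0]
    simp only [Nat.sub_zero, Nat.mod_self]
    rw [if_neg (by omega), if_neg (by omega)]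
    constructor <;> intro _ <;> omega
  · rw [Nat.mod_eq_of_lt (by omega)]
    split_ifs <;> omega

/-! ### the blocks of `J` -/

lemma blk_lt_last {m : ℕ} {J : Finset ℕ} {v : Fin (m + 1)} (hv : v ≠ Fin.last m) :
    blk (insert m J) v < blk (insert m J) (Fin.last m) := by
  refine blk_lt_of_mem (i := m) (by simp) ?_ (by simp)
  have := v.isLt
  have h2 : (v : ℕ) ≠ m := fun h => hv (Fin.ext h)
  omega

lemma eq_last_of_blk {m : ℕ} {J : Finset ℕ} {v : Fin (m + 1)}
    (hv : blk (insert m J) v = blk (insert m J) (Fin.last m)) : v = Fin.last m := by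
  by_contra h
  have := blk_lt_last (J := J) h
  omega

lemma inv_last {m : ℕ} {ρ : Equiv.Perm (Fin (m + 1))} (h : ρ (Fin.last m) = Fin.last m) :
    ρ⁻¹ (Fin.last m) = Fin.last m := by
  rw [Equiv.Perm.inv_eq_iff_eq, h]

lemma des_inv_subset_iff {m : ℕ} {ρ : Equiv.Perm (Fin (m + 1))}
    (hρ : ρ (Fin.last m) = Fin.last m) (J : Finset ℕ) :
    Des ρ⁻¹ ⊆ J ↔ Des ρ⁻¹ ⊆ insert m J := by
  constructor
  · intro h; exact h.trans (Finset.subset_insert _ _)
  · intro h a ha
    have h1 := h ha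
    rw [Finset.mem_insert] at h1
    rcases h1 with h1 | h1
    · exfalso
      obtain ⟨i, hi, hlt⟩ := (mem_Des_iff _ _).1 ha
      have : i.succ = Fin.last m := by
        ext; simp; omega
      rw [this, inv_last hρ] at hlt
      exact absurd hlt (not_lt.2 (Fin.le_last _))
    · exact h1

/-- the threshold order on letters -/
def kap (j l : ℕ) : ℕ ×ₗ ℕ := toLex (if j < l then 0 else 1, l)

lemma kap_injective (j : ℕ) : Function.Injective (kap j) := by
  intro a b h
  simp only [kap, EmbeddingLike.apply_eq_iff_eq, Prod.mk.injEq] at h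
  exact h.2

/-! ### horizontal rotations -/

lemma R_equiv {m : ℕ} {w ρ : Equiv.Perm (Fin (m + 1))} {I J : Finset ℕ} {k : Fin (m + 1)}
    (hw : Des w ⊆ I) (hρ : ρ (Fin.last m) = Fin.last m) (hwρ : w = ρ * Equiv.addRight k) :
    Des ρ⁻¹ ⊆ J ↔ Monotone (fun v => toLex (blk (insert m J) v,
      kap (blk I (w⁻¹ (Fin.last m))) (blk I (w⁻¹ v)))) := by
  rw [des_inv_subset_iff hρ, des_subset_iff, Fin.strictMono_iff_lt_succ, Fin.monotone_iff_le_succ]
  have hinv : ∀ v, ρ⁻¹ v = w⁻¹ v + k := by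
    intro v
    have : ρ⁻¹ = Equiv.addRight k * w⁻¹ := by rw [hwρ]; group
    rw [this]; rfl
  have hp : w⁻¹ (Fin.last m) + k = Fin.last m := by rw [← hinv, inv_last hρ]
  apply forall_congr'
  intro i
  rw [Prod.Lex.toLex_lt_toLex, Prod.Lex.toLex_le_toLex]
  apply or_congr Iff.rfl
  apply and_congr_right
  intro hb
  have hs : i.succ ≠ Fin.last m := by
    intro h
    have h2 := blk_lt_last (J := J) (v := i.castSucc) (by simp [Fin.ext_iff]; omega)
    rw [← h] at h2
    omega
  have hc : i.castSucc ≠ Fin.last m := by simp [Fin.ext_iff]; omega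
  have hsl : i.succ < Fin.last m := lt_of_le_of_ne (Fin.le_last _) hs
  have hcl : i.castSucc < Fin.last m := lt_of_le_of_ne (Fin.le_last _) hc
  rw [hinv, hinv]
  rw [rot_lt_iff _ _ _ _ hp (fun h => hc (w⁻¹.injective h)) (fun h => hs (w⁻¹.injective h))]
  have h1 := inv_lt_inv_iff hw i.castSucc i.succ
  have h2 := inv_lt_inv_iff hw (Fin.last m) i.castSucc
  have h3 := inv_lt_inv_iff hw (Fin.last m) i.succ
  have h4 := inv_lt_inv_iff hw i.succ (Fin.last m)
  have h5 : i.castSucc < i.succ := by simp [Fin.lt_def]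
  rw [h1, h2, h3, h4]
  simp only [kap, Prod.Lex.toLex_le_toLex, h5, hsl, not_lt.2 hsl.le, not_lt.2 hcl.le, and_true,
    and_false, or_false]
  generalize blk I (w⁻¹ (Fin.last m)) = P
  generalize blk I (w⁻¹ i.castSucc) = A
  generalize blk I (w⁻¹ i.succ) = C
  by_cases hA : P < A <;> by_cases hC : P < C <;>
    simp only [hA, hC, if_true, if_false, true_and, false_and, iff_true, iff_false, false_or,
      or_false, not_true, lt_irrefl, zero_lt_one, true_or, false_iff] <;> omega


/-! ### the two index sets and their maps to classes of words -/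

/-- horizontal index set -/
def RSet (m : ℕ) (J I : Finset ℕ) : Finset (Fin (m + 1) × Equiv.Perm (Fin (m + 1))) :=
  Finset.univ.filter (fun p => p.2 (Fin.last m) = Fin.last m ∧ Des p.2⁻¹ ⊆ J ∧
    Des (p.2 * Equiv.addRight p.1) ⊆ I)

/-- vertical index set -/
def LSet (m : ℕ) (J I : Finset ℕ) : Finset (Fin (m + 1) × Equiv.Perm (Fin (m + 1))) :=
  Finset.univ.filter (fun p => p.2 (Fin.last m) = Fin.last m ∧ Des p.2⁻¹ ⊆ J ∧
    Des (Equiv.addRight p.1 * p.2) ⊆ I)

/-- map of the horizontal index set -/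
def PsiR (m : ℕ) (J I : Finset ℕ) (p : Fin (m + 1) × Equiv.Perm (Fin (m + 1))) :
    Multiset (ℕ × ℕ) :=
  pairs (blk (insert m J)) (blk I ∘ ⇑(p.2 * Equiv.addRight p.1)⁻¹)

/-- map of the vertical index set -/
def PsiL (m : ℕ) (J I : Finset ℕ) (p : Fin (m + 1) × Equiv.Perm (Fin (m + 1))) :
    Multiset (ℕ × ℕ) :=
  pairs (blk (insert m J)) ((blk I ∘ ⇑p.2⁻¹) ∘ Equiv.swap (-p.1) (Fin.last m))

/-- all classes of words -/
def Cls (m : ℕ) (J I : Finset ℕ) : Finset (Multiset (ℕ × ℕ)) :=
  (Finset.univ : Finset (Equiv.Perm (Fin (m + 1)))).image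
    (fun σ : Equiv.Perm (Fin (m + 1)) => pairs (blk (insert m J)) (blk I ∘ ⇑σ))

lemma pairs_last {m : ℕ} {J : Finset ℕ} {g h : Fin (m + 1) → ℕ}
    (hp : pairs (blk (insert m J)) g = pairs (blk (insert m J)) h) :
    g (Fin.last m) = h (Fin.last m) := by
  have h1 : (blk (insert m J) (Fin.last m), g (Fin.last m)) ∈ pairs (blk (insert m J)) g :=
    mem_pairs.2 ⟨_, rfl, rfl⟩
  rw [hp] at h1
  obtain ⟨v, hv1, hv2⟩ := mem_pairs.1 h1
  rw [eq_last_of_blk hv1] at hv2
  exact hv2.symm

lemma RSet_image (m : ℕ) (J I : Finset ℕ) : (RSet m J I).image (PsiR m J I) = Cls m J I := by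
  apply Finset.Subset.antisymm
  · intro x hx
    obtain ⟨p, hp, rfl⟩ := Finset.mem_image.1 hx
    exact Finset.mem_image.2 ⟨(p.2 * Equiv.addRight p.1)⁻¹, Finset.mem_univ _, rfl⟩
  · intro x hx
    obtain ⟨σ, -, rfl⟩ := Finset.mem_image.1 hx
    obtain ⟨τ, hτ1, hτ2⟩ := exists_sorted (blk_mono (m := m) (insert m J)) (blk I ∘ ⇑σ)
      (kap (blk I (σ (Fin.last m))))
    set g : Fin (m + 1) → ℕ := blk I ∘ ⇑(σ * τ) with hg
    obtain ⟨hw1, hw2⟩ := word_of_sort I (σ * τ) g hg
    set w := Tuple.sort g with hwdef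
    have hτl : τ (Fin.last m) = Fin.last m := eq_last_of_blk (congrFun hτ1 (Fin.last m))
    have hgv : ∀ v, blk I (w⁻¹ v) = blk I (σ (τ v)) := fun v => congrFun hw1 v
    set k := Fin.last m - w⁻¹ (Fin.last m) with hk
    set ρ := w * (Equiv.addRight k)⁻¹ with hρdef
    have hwρ : w = ρ * Equiv.addRight k := by rw [hρdef]; group
    have hρ : ρ (Fin.last m) = Fin.last m := by
      have : (Equiv.addRight k)⁻¹ (Fin.last m) = w⁻¹ (Fin.last m) := by
        rw [Equiv.Perm.inv_eq_iff_eq]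
        simp [hk]
      rw [hρdef, Equiv.Perm.mul_apply, this]; simp
    refine Finset.mem_image.2 ⟨(k, ρ), ?_, ?_⟩
    · unfold RSet
      simp only [Finset.mem_filter, Finset.mem_univ, true_and]
      refine ⟨hρ, ?_, ?_⟩
      · rw [R_equiv hw2 hρ hwρ]
        simp only [hgv, hτl]
        exact hτ2
      · rw [← hwρ]; exact hw2
    · unfold PsiR
      simp only
      rw [← hwρ, hw1]
      have : g = (blk I ∘ ⇑σ) ∘ ⇑τ := rfl
      rw [this]
      exact pairs_comp τ hτ1

lemma RSet_inj (m : ℕ) (J I : Finset ℕ) : Set.InjOn (PsiR m J I) (RSet m J I) := by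
  rintro ⟨k₁, ρ₁⟩ h₁ ⟨k₂, ρ₂⟩ h₂ he
  simp only [RSet, Finset.coe_filter, Finset.mem_univ, true_and, Set.mem_ofPred_eq] at h₁ h₂
  simp only [PsiR] at he
  obtain ⟨a1, b1, c1⟩ := h₁
  obtain ⟨a2, b2, c2⟩ := h₂
  set w₁ := ρ₁ * Equiv.addRight k₁ with hw1
  set w₂ := ρ₂ * Equiv.addRight k₂ with hw2
  have m1 := (R_equiv c1 a1 hw1).1 b1
  have m2 := (R_equiv c2 a2 hw2).1 b2
  have hl := pairs_last he
  simp only [Function.comp] at hl
  rw [← hl] at m2
  have hg := eq_of_pairs_eq _ (kap_injective _) he m1 m2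
  have hww : w₁ = w₂ := by
    rw [(des_subset_iff_sort w₁ I).1 c1, (des_subset_iff_sort w₂ I).1 c2, hg]
  have hp1 : w₁⁻¹ (Fin.last m) + k₁ = Fin.last m := by
    have : ρ₁⁻¹ = Equiv.addRight k₁ * w₁⁻¹ := by rw [hw1]; group
    have h := inv_last a1
    rw [this] at h; exact h
  have hp2 : w₂⁻¹ (Fin.last m) + k₂ = Fin.last m := by
    have : ρ₂⁻¹ = Equiv.addRight k₂ * w₂⁻¹ := by rw [hw2]; group
    have h := inv_last a2
    rw [this] at h; exact h
  have hk : k₁ = k₂ := by
    rw [hww] at hp1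
    exact add_left_cancel (hp1.trans hp2.symm)
  have hρ : ρ₁ = ρ₂ := by
    have h1 : ρ₁ = w₁ * (Equiv.addRight k₁)⁻¹ := by rw [hw1]; group
    have h2 : ρ₂ = w₂ * (Equiv.addRight k₂)⁻¹ := by rw [hw2]; group
    rw [h1, h2, hww, hk]
  rw [hk, hρ]


/-! ### vertical rotations -/

lemma L_equiv {m : ℕ} {w ρ : Equiv.Perm (Fin (m + 1))} {I J : Finset ℕ} {k : Fin (m + 1)}
    (hw : Des w ⊆ I) (hρ : ρ (Fin.last m) = Fin.last m) (hwρ : w = Equiv.addRight k * ρ) :
    Des ρ⁻¹ ⊆ J ↔ ∀ i : Fin m, blk (insert m J) i.castSucc < blk (insert m J) i.succ ∨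
      (blk (insert m J) i.castSucc = blk (insert m J) i.succ ∧
        (blk I (ρ⁻¹ i.castSucc) < blk I (ρ⁻¹ i.succ) ∨
          (blk I (ρ⁻¹ i.castSucc) = blk I (ρ⁻¹ i.succ) ∧ i.succ ≠ -k))) := by
  rw [des_inv_subset_iff hρ, des_subset_iff, Fin.strictMono_iff_lt_succ]
  have hinv : ∀ v, ρ⁻¹ v = w⁻¹ (v + k) := by
    intro v
    have : ρ⁻¹ = w⁻¹ * Equiv.addRight k := by rw [hwρ]; group
    rw [this]; rfl
  apply forall_congr'
  intro i
  rw [Prod.Lex.toLex_lt_toLex]
  apply or_congr Iff.rfl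
  apply and_congr_right
  intro hb
  show ρ⁻¹ i.castSucc < ρ⁻¹ i.succ ↔ _
  rw [hinv, hinv, inv_lt_inv_iff hw, rot_succ_lt_iff]

lemma L_lt {m : ℕ} {w ρ : Equiv.Perm (Fin (m + 1))} {I : Finset ℕ} {k : Fin (m + 1)}
    (hw : Des w ⊆ I) (hρ : ρ (Fin.last m) = Fin.last m) (hwρ : w = Equiv.addRight k * ρ)
    {v : Fin (m + 1)} (hv : v < -k) : blk I (ρ⁻¹ v) < blk I (Fin.last m) := by
  have hinv : ∀ v, ρ⁻¹ v = w⁻¹ (v + k) := by
    intro v
    have : ρ⁻¹ = w⁻¹ * Equiv.addRight k := by rw [hwρ]; group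
    rw [this]; rfl
  have hne : ρ⁻¹ v ≠ Fin.last m := by
    intro h
    have h2 : v = Fin.last m := by
      rw [Equiv.Perm.inv_eq_iff_eq, hρ] at h; exact h
    rw [h2] at hv
    exact absurd (Fin.le_last _) (not_le.2 hv)
  have hlt : ρ⁻¹ v < ρ⁻¹ (Fin.last m) := by
    rw [inv_last hρ]; exact lt_of_le_of_ne (Fin.le_last _) hne
  have h2 := hlt
  rw [hinv, hinv, inv_lt_inv_iff hw] at h2
  rcases h2 with h2 | h2
  · rw [← hinv, ← hinv, inv_last hρ] at h2
    exact h2
  · exact absurd h2.2 (rot_lt_last hv)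

lemma mono_of_L {m : ℕ} {J : Finset ℕ} {g : Fin (m + 1) → ℕ} {q : Fin (m + 1)}
    (h : ∀ i : Fin m, blk (insert m J) i.castSucc < blk (insert m J) i.succ ∨
      (blk (insert m J) i.castSucc = blk (insert m J) i.succ ∧
        (g i.castSucc < g i.succ ∨ (g i.castSucc = g i.succ ∧ i.succ ≠ q)))) :
    Monotone (fun v => toLex (blk (insert m J) v, g v)) := by
  rw [Fin.monotone_iff_le_succ]
  intro i
  rw [Prod.Lex.toLex_le_toLex]
  rcases h i with h1 | ⟨h1, h2⟩
  · exact Or.inl h1
  · refine Or.inr ⟨h1, ?_⟩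
    rcases h2 with h2 | h2
    · exact h2.le
    · exact h2.1.le

lemma LSet_image (m : ℕ) (J I : Finset ℕ) : (LSet m J I).image (PsiL m J I) = Cls m J I := by
  set B : Fin (m + 1) → ℕ := blk (insert m J) with hB
  have hBm : Monotone B := blk_mono _
  have hmax : ∀ v : Fin (m + 1), blk I v ≤ blk I (Fin.last m) := fun v => blk_mono I (Fin.le_last v)
  apply Finset.Subset.antisymm
  · intro x hx
    obtain ⟨p, hp, rfl⟩ := Finset.mem_image.1 hx
    exact Finset.mem_image.2 ⟨p.2⁻¹ * Equiv.swap (-p.1) (Fin.last m), Finset.mem_univ _, rfl⟩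
  · intro x hx
    obtain ⟨σ, -, rfl⟩ := Finset.mem_image.1 hx
    set G : Fin (m + 1) → ℕ := blk I ∘ ⇑σ with hG
    set M := blk I (Fin.last m) with hM
    -- the first block containing the letter `M`
    obtain ⟨v0, hv0, hv0min⟩ : ∃ v0, G v0 = M ∧ ∀ v, G v = M → B v0 ≤ B v := by
      have hne : (Finset.univ.filter (fun v => G v = M)).Nonempty :=
        ⟨σ⁻¹ (Fin.last m), by simp [hG, hM]⟩
      obtain ⟨v0, h1, h2⟩ := Finset.exists_min_image _ B hne
      refine ⟨v0, by simpa using h1, ?_⟩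
      intro v hv
      exact h2 v (by simpa using hv)
    set G1 : Fin (m + 1) → ℕ := G ∘ Equiv.swap v0 (Fin.last m) with hG1
    obtain ⟨τ, hτ1, hτ2⟩ := exists_sorted hBm G1 (id : ℕ → ℕ)
    set g : Fin (m + 1) → ℕ := G1 ∘ ⇑τ with hg
    have hτl : τ (Fin.last m) = Fin.last m := eq_last_of_blk (congrFun hτ1 (Fin.last m))
    have hgl : g (Fin.last m) = M := by
      simp [hg, hτl, hG1, hv0]
    have hgle : ∀ v, g v ≤ M := fun v => hmax _
    have hpg : pairs B g = pairs B G1 := pairs_comp τ hτ1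
    -- the marked position
    obtain ⟨q, hq1, hq2, hqmin⟩ : ∃ q, B q = B v0 ∧ g q = G (Fin.last m) ∧
        ∀ v, B v = B v0 → g v = G (Fin.last m) → q ≤ v := by
      have hne : (Finset.univ.filter
          (fun v => B v = B v0 ∧ g v = G (Fin.last m))).Nonempty := by
        refine ⟨τ⁻¹ v0, ?_⟩
        simp only [Finset.mem_filter, Finset.mem_univ, true_and]
        refine ⟨?_, by simp [hg, hG1]⟩
        have := congrFun hτ1 (τ⁻¹ v0)
        have h1 : τ (τ⁻¹ v0) = v0 := τ.apply_symm_apply v0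
        simp only [Function.comp, h1] at this
        exact this.symm
      obtain ⟨q, h1, h2⟩ := Finset.exists_min_image _ id hne
      simp only [Finset.mem_filter, Finset.mem_univ, true_and, id] at h1 h2
      exact ⟨q, h1.1, h1.2, fun v hv hv' => h2 v ⟨hv, hv'⟩⟩
    have hsort : ∀ a b : Fin (m + 1), a ≤ b → B a = B b → g a ≤ g b := by
      intro a b hab he
      have := hτ2 hab
      simp only [Prod.Lex.toLex_le_toLex, id] at this
      rcases this with h | h
      · omega
      · exact h.2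
    have hlow : ∀ v, v < q → g v < M := by
      intro v hv
      refine lt_of_le_of_ne (hgle v) ?_
      intro hc
      have hBv : B v ≤ B q := hBm hv.le
      rcases hBv.lt_or_eq with hlt | heq
      · -- a block before the first block of `M`
        have hmem : (B v, M) ∈ pairs B G1 := by
          rw [← hpg]; exact mem_pairs.2 ⟨v, rfl, hc⟩
        obtain ⟨u, hu1, hu2⟩ := mem_pairs.1 hmem
        simp only at hu1 hu2
        have hu0 : u ≠ v0 := by
          intro h; rw [h] at hu1; omega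
        have hul : u ≠ Fin.last m := by
          intro h
          have : B q ≤ B (Fin.last m) := hBm (Fin.le_last _)
          rw [h] at hu1; omega
        rw [hG1, Function.comp, Equiv.swap_apply_of_ne_of_ne hu0 hul] at hu2
        have := hv0min u hu2
        omega
      · have h1 : g v ≤ g q := hsort v q hv.le heq
        have h2 : g q = M := le_antisymm (hgle q) (hc ▸ h1)
        have h3 : g v = G (Fin.last m) := by rw [hc, ← h2, hq2]
        exact absurd (hqmin v (heq.trans hq1) h3) (not_le.2 hv)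
    -- the permutation
    set k : Fin (m + 1) := -q with hk
    have hkq : -k = q := by rw [hk, neg_neg]
    set gg : Fin (m + 1) → ℕ := g ∘ ⇑(Equiv.addRight k)⁻¹ with hgg
    have hggσ : gg = blk I ∘ ⇑(σ * Equiv.swap v0 (Fin.last m) * τ * (Equiv.addRight k)⁻¹) := rfl
    obtain ⟨hw1, hw2⟩ := word_of_sort I _ gg hggσ
    set w := Tuple.sort gg with hw
    have hgw : ∀ v, blk I (w⁻¹ (v + k)) = g v := by
      intro v
      have := congrFun hw1 (v + k)
      simp only [Function.comp] at this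
      rw [this, hgg]
      simp only [Function.comp]
      congr 1
      rw [Equiv.Perm.inv_eq_iff_eq]; rfl
    have hwl : w⁻¹ (Fin.last m + k) = Fin.last m := by
      have hge : ∀ y, ¬ (w⁻¹ (Fin.last m + k) < w⁻¹ y) := by
        intro y hy
        rw [inv_lt_inv_iff hw2] at hy
        obtain ⟨v, rfl⟩ : ∃ v, y = v + k := ⟨y - k, by simp⟩
        rw [hgw, hgw, hgl] at hy
        rcases hy with hy | hy
        · exact absurd (hgle v) (not_le.2 hy)
        · have := hlow v (hkq ▸ lt_neg_of_rot hy.2)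
          omega
      have := hge (w (Fin.last m))
      have h1 : w⁻¹ (w (Fin.last m)) = Fin.last m := w.symm_apply_apply _
      rw [h1] at this
      exact le_antisymm (Fin.le_last _) (not_lt.1 this)
    set ρ := (Equiv.addRight k)⁻¹ * w with hρdef
    have hwρ : w = Equiv.addRight k * ρ := by rw [hρdef]; group
    have hρ : ρ (Fin.last m) = Fin.last m := by
      rw [hρdef, Equiv.Perm.mul_apply, Equiv.Perm.inv_eq_iff_eq]
      rw [Equiv.Perm.inv_eq_iff_eq] at hwl
      exact hwl.symm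
    have hρinv : ∀ v, blk I (ρ⁻¹ v) = g v := by
      intro v
      have : ρ⁻¹ = w⁻¹ * Equiv.addRight k := by rw [hρdef]; group
      rw [this]
      exact hgw v
    refine Finset.mem_image.2 ⟨(k, ρ), ?_, ?_⟩
    · unfold LSet
      simp only [Finset.mem_filter, Finset.mem_univ, true_and]
      refine ⟨hρ, ?_, by rw [← hwρ]; exact hw2⟩
      rw [L_equiv hw2 hρ hwρ]
      intro i
      rw [← hB, hρinv, hρinv, hkq]
      have hle : B i.castSucc ≤ B i.succ := hBm (by simp [Fin.le_def])
      rcases hle.lt_or_eq with h | h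
      · exact Or.inl h
      · refine Or.inr ⟨h, ?_⟩
        have h1 := hsort i.castSucc i.succ (by simp [Fin.le_def]) h
        rcases h1.lt_or_eq with h2 | h2
        · exact Or.inl h2
        · refine Or.inr ⟨h2, ?_⟩
          intro h3
          have h4 := hqmin i.castSucc (by rw [h, h3, hq1]) (by rw [h2, h3, hq2])
          rw [← h3] at h4
          exact absurd h4 (not_le.2 (by simp [Fin.lt_def]))
    · unfold PsiL
      simp only
      have h1 : blk I ∘ ⇑ρ⁻¹ = g := funext hρinv
      rw [h1, hkq, ← hB]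
      have e1 := pairs_swap B g q (Fin.last m)
      have e2 := pairs_swap B G v0 (Fin.last m)
      rw [← hG1, ← hpg, hv0] at e2
      rw [hgl, hq1, hq2] at e1
      rw [hG]
      have e3 : pairs B (g ∘ Equiv.swap q (Fin.last m)) + {(B v0, G (Fin.last m)), (B (Fin.last m), M)}
          + {(B v0, M), (B (Fin.last m), G (Fin.last m))}
          = pairs B G + {(B v0, G (Fin.last m)), (B (Fin.last m), M)}
          + {(B v0, M), (B (Fin.last m), G (Fin.last m))} := by
        rw [e1, ← e2]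
      exact add_right_cancel (add_right_cancel e3)


/-- relation between the two blocks of marked positions -/
lemma block_le_of_L {m : ℕ} {J : Finset ℕ} {g₁ g₂ : Fin (m + 1) → ℕ} {q₁ q₂ : Fin (m + 1)} {M : ℕ}
    (h1l : g₁ (Fin.last m) = M)
    (h2low : ∀ v, v < q₂ → g₂ v < M)
    (hp : pairs (blk (insert m J)) (g₁ ∘ Equiv.swap q₁ (Fin.last m))
      = pairs (blk (insert m J)) (g₂ ∘ Equiv.swap q₂ (Fin.last m))) :
    blk (insert m J) q₂ ≤ blk (insert m J) q₁ := by
  by_contra hlt
  rw [not_le] at hlt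
  have hmem : (blk (insert m J) q₁, M) ∈
      pairs (blk (insert m J)) (g₁ ∘ Equiv.swap q₁ (Fin.last m)) := by
    refine mem_pairs.2 ⟨q₁, rfl, ?_⟩
    simp [h1l]
  rw [hp] at hmem
  obtain ⟨u, hu1, hu2⟩ := mem_pairs.1 hmem
  simp only at hu1 hu2
  have hu3 : u ≠ q₂ := by
    intro h; rw [h] at hu1; omega
  have hle : blk (insert m J) q₂ ≤ blk (insert m J) (Fin.last m) := blk_mono _ (Fin.le_last _)
  have hu4 : u ≠ Fin.last m := by
    intro h; rw [h] at hu1; omega
  rw [Function.comp, Equiv.swap_apply_of_ne_of_ne hu3 hu4] at hu2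
  have hu5 : u < q₂ := by
    by_contra h
    have := blk_mono (insert m J) (not_lt.1 h)
    omega
  have := h2low u hu5
  omega

lemma marked_le {m : ℕ} {J : Finset ℕ} {g : Fin (m + 1) → ℕ} {q₁ q₂ : Fin (m + 1)}
    (h : ∀ i : Fin m, blk (insert m J) i.castSucc < blk (insert m J) i.succ ∨
      (blk (insert m J) i.castSucc = blk (insert m J) i.succ ∧
        (g i.castSucc < g i.succ ∨ (g i.castSucc = g i.succ ∧ i.succ ≠ q₂))))
    (hb : blk (insert m J) q₁ = blk (insert m J) q₂) (hg : g q₁ = g q₂) : q₂ ≤ q₁ := by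
  by_contra hlt
  rw [not_le] at hlt
  have hm := mono_of_L h
  have hq2 : (q₂ : ℕ) ≠ 0 := by
    intro h0
    rw [Fin.lt_def] at hlt
    omega
  have hlt' : (q₁ : ℕ) < (q₂ : ℕ) := hlt
  have hq2' := q₂.isLt
  set i : Fin m := ⟨(q₂ : ℕ) - 1, by omega⟩ with hi
  have his : i.succ = q₂ := by ext; simp [hi]; omega
  have hle : q₁ ≤ i.castSucc := by
    rw [Fin.le_def]; simp [hi]; omega
  have hle2 : i.castSucc ≤ q₂ := by
    rw [Fin.le_def]; simp [hi]
  have hb1 := blk_mono (insert m J) hle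
  have hb2 := blk_mono (insert m J) hle2
  have hbi : blk (insert m J) i.castSucc = blk (insert m J) i.succ := by rw [his]; omega
  have hbi' : blk (insert m J) q₁ = blk (insert m J) i.castSucc := by omega
  have h1 := hm hle
  rw [Prod.Lex.toLex_le_toLex] at h1
  have h2 : g q₁ ≤ g i.castSucc := by
    rcases h1 with h1 | h1
    · simp only at h1; omega
    · exact h1.2
  rcases h i with h3 | ⟨-, h3 | h3⟩
  · omega
  · rw [his] at h3; omega
  · exact h3.2 his

lemma LSet_inj (m : ℕ) (J I : Finset ℕ) : Set.InjOn (PsiL m J I) (LSet m J I) := by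
  rintro ⟨k₁, ρ₁⟩ h₁ ⟨k₂, ρ₂⟩ h₂ he
  simp only [LSet, Finset.coe_filter, Finset.mem_univ, true_and, Set.mem_ofPred_eq] at h₁ h₂
  simp only [PsiL] at he
  obtain ⟨a1, b1, c1⟩ := h₁
  obtain ⟨a2, b2, c2⟩ := h₂
  set w₁ := Equiv.addRight k₁ * ρ₁ with hw1
  set w₂ := Equiv.addRight k₂ * ρ₂ with hw2
  have m1 := (L_equiv c1 a1 hw1).1 b1
  have m2 := (L_equiv c2 a2 hw2).1 b2
  have l1 : ∀ v, v < -k₁ → (blk I ∘ ⇑ρ₁⁻¹) v < blk I (Fin.last m) := fun v hv => L_lt c1 a1 hw1 hv
  have l2 : ∀ v, v < -k₂ → (blk I ∘ ⇑ρ₂⁻¹) v < blk I (Fin.last m) := fun v hv => L_lt c2 a2 hw2 hv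
  have e1 : (blk I ∘ ⇑ρ₁⁻¹) (Fin.last m) = blk I (Fin.last m) := by
    show blk I (ρ₁⁻¹ (Fin.last m)) = _
    rw [inv_last a1]
  have e2 : (blk I ∘ ⇑ρ₂⁻¹) (Fin.last m) = blk I (Fin.last m) := by
    show blk I (ρ₂⁻¹ (Fin.last m)) = _
    rw [inv_last a2]
  have hb : blk (insert m J) (-k₁) = blk (insert m J) (-k₂) :=
    le_antisymm (block_le_of_L e2 l1 he.symm) (block_le_of_L e1 l2 he)
  have hj : (blk I ∘ ⇑ρ₁⁻¹) (-k₁) = (blk I ∘ ⇑ρ₂⁻¹) (-k₂) := by
    have := pairs_last he
    simpa using this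
  have s1 := pairs_swap (blk (insert m J)) (blk I ∘ ⇑ρ₁⁻¹) (-k₁) (Fin.last m)
  have s2 := pairs_swap (blk (insert m J)) (blk I ∘ ⇑ρ₂⁻¹) (-k₂) (Fin.last m)
  rw [he, e1, hj, hb] at s1
  rw [e2] at s2
  have hp : pairs (blk (insert m J)) (blk I ∘ ⇑ρ₁⁻¹) = pairs (blk (insert m J)) (blk I ∘ ⇑ρ₂⁻¹) :=
    add_right_cancel (s1.symm.trans s2)
  have hg : (blk I ∘ ⇑ρ₁⁻¹) = (blk I ∘ ⇑ρ₂⁻¹) :=
    eq_of_pairs_eq (id : ℕ → ℕ) Function.injective_id hp (mono_of_L m1) (mono_of_L m2)
  have hq : -k₁ = -k₂ := by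
    apply le_antisymm
    · exact marked_le (g := blk I ∘ ⇑ρ₁⁻¹) m1 hb.symm ((congrFun hg (-k₂)).trans hj.symm)
    · exact marked_le (g := blk I ∘ ⇑ρ₂⁻¹) m2 hb ((congrFun hg (-k₁)).symm.trans hj)
  have hk : k₁ = k₂ := neg_injective hq
  have hwg : blk I ∘ ⇑w₁⁻¹ = blk I ∘ ⇑w₂⁻¹ := by
    have h1 : w₁⁻¹ = ρ₁⁻¹ * (Equiv.addRight k₁)⁻¹ := by rw [hw1]; group
    have h2 : w₂⁻¹ = ρ₂⁻¹ * (Equiv.addRight k₂)⁻¹ := by rw [hw2]; group
    rw [h1, h2, hk]
    have h3 : blk I ∘ ⇑(ρ₁⁻¹ * (Equiv.addRight k₂)⁻¹) = (blk I ∘ ⇑ρ₁⁻¹) ∘ ⇑(Equiv.addRight k₂)⁻¹ := rfl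
    have h4 : blk I ∘ ⇑(ρ₂⁻¹ * (Equiv.addRight k₂)⁻¹) = (blk I ∘ ⇑ρ₂⁻¹) ∘ ⇑(Equiv.addRight k₂)⁻¹ := rfl
    rw [h3, h4, hg]
  have hww : w₁ = w₂ := by
    rw [(des_subset_iff_sort w₁ I).1 c1, (des_subset_iff_sort w₂ I).1 c2, hwg]
  have hρ : ρ₁ = ρ₂ := by
    have h1 : ρ₁ = (Equiv.addRight k₁)⁻¹ * w₁ := by rw [hw1]; group
    have h2 : ρ₂ = (Equiv.addRight k₂)⁻¹ * w₂ := by rw [hw2]; group
    rw [h1, h2, hww, hk]
  rw [hk, hρ]

lemma card_LSet_eq_card_RSet (m : ℕ) (J I : Finset ℕ) :
    (LSet m J I).card = (RSet m J I).card := by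
  rw [← Finset.card_image_of_injOn (LSet_inj m J I), ← Finset.card_image_of_injOn (RSet_inj m J I),
    LSet_image, RSet_image]


/-- from inclusions to equalities of descent sets -/
lemma moebius {X : Type*} (S : Finset X) (A c d : X → Finset ℕ)
    (h : ∀ J I, (S.filter (fun x => A x ⊆ J ∧ c x ⊆ I)).card
      = (S.filter (fun x => A x ⊆ J ∧ d x ⊆ I)).card) :
    ∀ J I, (S.filter (fun x => A x = J ∧ c x = I)).card
      = (S.filter (fun x => A x = J ∧ d x = I)).card := by
  have key : ∀ (c : X → Finset ℕ) (J I : Finset ℕ),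
      (S.filter (fun x => A x ⊆ J ∧ c x ⊆ I)).card
        = ∑ p ∈ J.powerset ×ˢ I.powerset, (S.filter (fun x => A x = p.1 ∧ c x = p.2)).card := by
    intro c J I
    rw [Finset.card_eq_sum_card_fiberwise (f := fun x => (A x, c x))
      (t := J.powerset ×ˢ I.powerset)]
    · apply Finset.sum_congr rfl
      rintro ⟨a, b⟩ hab
      rw [Finset.mem_product, Finset.mem_powerset, Finset.mem_powerset] at hab
      rw [Finset.filter_filter]
      congr 1
      ext x
      simp only [Finset.mem_filter, Prod.mk.injEq]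
      constructor
      · rintro ⟨h1, h2, h3⟩; exact ⟨h1, h3⟩
      · rintro ⟨h1, h2, h3⟩; exact ⟨h1, ⟨h2 ▸ hab.1, h3 ▸ hab.2⟩, h2, h3⟩
    · intro x hx
      simp only [Finset.coe_filter, Set.mem_ofPred_eq] at hx
      simp [hx.2.1, hx.2.2]
  have main : ∀ N : ℕ, ∀ J I : Finset ℕ, J.card + I.card = N →
      (S.filter (fun x => A x = J ∧ c x = I)).card
        = (S.filter (fun x => A x = J ∧ d x = I)).card := by
    intro N
    induction N using Nat.strong_induction_on with
    | _ N ih =>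
      intro J I hN
      have h0 := h J I
      rw [key c, key d] at h0
      have hmem : (J, I) ∈ J.powerset ×ˢ I.powerset := by simp
      rw [← Finset.add_sum_erase _ _ hmem, ← Finset.add_sum_erase _ _ hmem] at h0
      have hrest : ∑ p ∈ (J.powerset ×ˢ I.powerset).erase (J, I),
          (S.filter (fun x => A x = p.1 ∧ c x = p.2)).card
          = ∑ p ∈ (J.powerset ×ˢ I.powerset).erase (J, I),
          (S.filter (fun x => A x = p.1 ∧ d x = p.2)).card := by
        apply Finset.sum_congr rfl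
        rintro ⟨a, b⟩ hab
        rw [Finset.mem_erase, Finset.mem_product, Finset.mem_powerset, Finset.mem_powerset] at hab
        obtain ⟨hne, ha, hb⟩ := hab
        simp only at ha hb
        have hca := Finset.card_le_card ha
        have hcb := Finset.card_le_card hb
        refine ih (a.card + b.card) ?_ a b rfl
        by_contra hc
        have h1 : a.card = J.card := by omega
        have h2 : b.card = I.card := by omega
        have h3 := Finset.eq_of_subset_of_card_le ha h1.ge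
        have h4 := Finset.eq_of_subset_of_card_le hb h2.ge
        exact hne (by rw [h3, h4])
      rw [hrest] at h0
      exact Nat.add_right_cancel h0
  intro J I
  exact main _ J I rfl

/-- the joint distribution of the descent sets over both kinds of rotations -/
lemma map_des_eq (m : ℕ) (J : Finset ℕ) :
    (((Finset.univ : Finset (Fin (m + 1) × Equiv.Perm (Fin (m + 1)))).filter
      (fun p => p.2 (Fin.last m) = Fin.last m ∧ Des p.2⁻¹ = J)).val.map
        (fun p => Des (Equiv.addRight p.1 * p.2)))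
    = (((Finset.univ : Finset (Fin (m + 1) × Equiv.Perm (Fin (m + 1)))).filter
      (fun p => p.2 (Fin.last m) = Fin.last m ∧ Des p.2⁻¹ = J)).val.map
        (fun p => Des (p.2 * Equiv.addRight p.1))) := by
  set S : Finset (Fin (m + 1) × Equiv.Perm (Fin (m + 1))) :=
    Finset.univ.filter (fun p => p.2 (Fin.last m) = Fin.last m) with hS
  have h := moebius S (fun p => Des p.2⁻¹) (fun p => Des (Equiv.addRight p.1 * p.2))
    (fun p => Des (p.2 * Equiv.addRight p.1)) (by
      intro J I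
      have := card_LSet_eq_card_RSet m J I
      unfold LSet RSet at this
      rw [hS, Finset.filter_filter, Finset.filter_filter]
      exact this) J
  ext I
  rw [Multiset.count_map, Multiset.count_map]
  have h1 := h I
  rw [hS, Finset.filter_filter, Finset.filter_filter] at h1
  have e1 : ∀ c : Fin (m + 1) × Equiv.Perm (Fin (m + 1)) → Finset ℕ,
      (Multiset.filter (fun p => I = c p) ((Finset.univ : Finset (Fin (m + 1) ×
        Equiv.Perm (Fin (m + 1)))).filter
          (fun p => p.2 (Fin.last m) = Fin.last m ∧ Des p.2⁻¹ = J)).val).card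
      = ((Finset.univ : Finset (Fin (m + 1) × Equiv.Perm (Fin (m + 1)))).filter
          (fun p => p.2 (Fin.last m) = Fin.last m ∧ (Des p.2⁻¹ = J ∧ c p = I))).card := by
    intro c
    rw [← Finset.filter_val, Finset.card_val, Finset.filter_filter]
    congr 1
    ext x
    simp only [Finset.mem_filter, Finset.mem_univ, true_and]
    constructor
    · rintro ⟨⟨a, b⟩, c⟩; exact ⟨a, b, c.symm⟩
    · rintro ⟨a, b, c⟩; exact ⟨⟨a, b⟩, c.symm⟩
  rw [e1, e1]
  exact h1

/-! ### identification of the sets in the statement -/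

lemma cyclicGroup_eq (m : ℕ) :
    cyclicGroup (m + 1) = (Finset.univ : Finset (Fin (m + 1))).image
      (fun k => (Equiv.addRight k : Equiv.Perm (Fin (m + 1)))) := by
  have hrot : finRotate (m + 1) = Equiv.addRight 1 := by
    ext i; simp
  ext g
  unfold cyclicGroup
  simp only [Finset.mem_filter, Finset.mem_univ, true_and, Finset.mem_image]
  constructor
  · intro hg
    let H : Subgroup (Equiv.Perm (Fin (m + 1))) :=
      { carrier := Set.range (fun k : Fin (m + 1) => (Equiv.addRight k : Equiv.Perm (Fin (m + 1))))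
        mul_mem' := by
          rintro _ _ ⟨a, rfl⟩ ⟨b, rfl⟩
          refine ⟨b + a, ?_⟩
          ext x
          simp [add_assoc]
        one_mem' := ⟨0, by ext x; simp⟩
        inv_mem' := by
          rintro _ ⟨a, rfl⟩
          refine ⟨-a, ?_⟩
          apply eq_inv_of_mul_eq_one_left
          ext x
          simp }
    have : Subgroup.zpowers (finRotate (m + 1)) ≤ H := by
      rw [Subgroup.zpowers_le]
      exact ⟨1, hrot.symm⟩
    exact this hg
  · rintro ⟨k, rfl⟩
    have hpow : ∀ (j : ℕ) (x : Fin (m + 1)),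
        (((finRotate (m + 1)) ^ j) x : ℕ) = ((x : ℕ) + j) % (m + 1) := by
      intro j
      induction j with
      | zero =>
        intro x
        simp [Nat.mod_eq_of_lt x.isLt]
      | succ j ih =>
        intro x
        rw [pow_succ', Equiv.Perm.mul_apply, hrot]
        have h1 : ((Equiv.addRight (1 : Fin (m + 1)) : Equiv.Perm (Fin (m + 1)))
            (((Equiv.addRight (1 : Fin (m + 1)) : Equiv.Perm (Fin (m + 1))) ^ j) x))
            = ((Equiv.addRight (1 : Fin (m + 1)) : Equiv.Perm (Fin (m + 1))) ^ j) x + 1 := rfl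
        rw [h1, Fin.val_add, ← hrot, ih]
        have h2 : ((1 : Fin (m + 1)) : ℕ) = 1 % (m + 1) := rfl
        rw [h2, ← Nat.add_mod, add_assoc]
    have : (Equiv.addRight k : Equiv.Perm (Fin (m + 1))) = (finRotate (m + 1)) ^ (k : ℕ) := by
      apply Equiv.ext
      intro x
      apply Fin.ext
      rw [hpow]
      exact Fin.val_add x k
    rw [this]
    exact Subgroup.npow_mem_zpowers _ _

lemma Des_viaEmbedding (m : ℕ) (π : Equiv.Perm (Fin m)) :
    Des (π.viaEmbedding (Fin.castLEEmb (Nat.le_succ m))) = Des π := by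
  have hlast : (π.viaEmbedding (Fin.castLEEmb (Nat.le_succ m))) (Fin.last m) = Fin.last m := by
    apply Equiv.Perm.viaEmbedding_apply_of_notMem
    rintro ⟨x, hx⟩
    have := congrArg Fin.val hx
    have h2 := x.isLt
    simp at this
    omega
  have hcast : ∀ (i : ℕ) (h : i < m) (h' : i < m + 1),
      ((π.viaEmbedding (Fin.castLEEmb (Nat.le_succ m))) ⟨i, h'⟩ : Fin (m + 1))
        = (π ⟨i, h⟩).castSucc := by
    intro i h h'
    have := Equiv.Perm.viaEmbedding_apply π (Fin.castLEEmb (Nat.le_succ m)) ⟨i, h⟩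
    exact this
  ext a
  unfold Des
  simp only [Finset.mem_filter, Finset.mem_Icc]
  constructor
  · rintro ⟨⟨h1, h2⟩, h3, h4, h5⟩
    have ham : a ≠ m := by
      intro h
      subst h
      have : (⟨a, h4⟩ : Fin (a + 1)) = Fin.last a := rfl
      rw [this, hlast] at h5
      exact absurd h5 (not_lt.2 (Fin.le_last _))
    refine ⟨⟨h1, by omega⟩, by omega, by omega, ?_⟩
    rw [hcast a (by omega), hcast (a - 1) (by omega)] at h5
    exact h5
  · rintro ⟨⟨h1, h2⟩, h3, h4, h5⟩
    refine ⟨⟨h1, by omega⟩, by omega, by omega, ?_⟩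
    rw [hcast a (by omega), hcast (a - 1) (by omega)]
    exact h5

lemma invDescentClass_eq (m : ℕ) (J : Finset ℕ) :
    invDescentClass (m + 1) J = (Finset.univ : Finset (Equiv.Perm (Fin (m + 1)))).filter
      (fun ρ => ρ (Fin.last m) = Fin.last m ∧ Des ρ⁻¹ = J) := by
  set ι : Fin m ↪ Fin (m + 1) := Fin.castLEEmb (Nat.le_succ m) with hι
  have hinv : ∀ π : Equiv.Perm (Fin m), (π.viaEmbedding ι)⁻¹ = π⁻¹.viaEmbedding ι := by
    intro π
    have h1 : (Equiv.Perm.viaEmbeddingHom ι) π⁻¹ = ((Equiv.Perm.viaEmbeddingHom ι) π)⁻¹ :=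
      map_inv _ _
    exact h1.symm
  have hlast : ∀ π : Equiv.Perm (Fin m), (π.viaEmbedding ι) (Fin.last m) = Fin.last m := by
    intro π
    apply Equiv.Perm.viaEmbedding_apply_of_notMem
    rintro ⟨x, hx⟩
    have := congrArg Fin.val hx
    have h2 := x.isLt
    simp [hι] at this
    omega
  ext ρ
  unfold invDescentClass
  simp only [Finset.mem_image, Finset.mem_filter, Finset.mem_univ, true_and]
  constructor
  · rintro ⟨π, hπ, rfl⟩
    refine ⟨hlast π, ?_⟩
    have : Des ((π.viaEmbedding ι)⁻¹) = J := by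
      rw [hinv π, hι, Des_viaEmbedding]
      exact hπ
    exact this
  · rintro ⟨h1, h2⟩
    -- restrict `ρ`
    have hne : ∀ x : Fin m, ρ x.castSucc ≠ Fin.last m := by
      intro x hx
      rw [← h1] at hx
      have := ρ.injective hx
      have h3 := congrArg Fin.val this
      have h4 := x.isLt
      simp at h3
      omega
    have hne' : ∀ x : Fin m, ρ⁻¹ x.castSucc ≠ Fin.last m := by
      intro x hx
      rw [← inv_last h1] at hx
      have := ρ⁻¹.injective hx
      have h3 := congrArg Fin.val this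
      have h4 := x.isLt
      simp at h3
      omega
    let π : Equiv.Perm (Fin m) :=
      { toFun := fun x => (ρ x.castSucc).castPred (hne x)
        invFun := fun x => (ρ⁻¹ x.castSucc).castPred (hne' x)
        left_inv := by
          intro x
          simp
        right_inv := by
          intro x
          simp }
    have hρ : π.viaEmbedding ι = ρ := by
      apply Equiv.ext
      intro x
      induction x using Fin.lastCases with
      | last => rw [hlast, h1]
      | cast x =>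
        have := Equiv.Perm.viaEmbedding_apply π ι x
        have h5 : ι x = x.castSucc := rfl
        rw [h5] at this
        rw [this]
        show ((ρ x.castSucc).castPred (hne x)).castSucc = ρ x.castSucc
        simp
    refine ⟨π, ?_, hρ⟩
    have h6 := Des_viaEmbedding m π⁻¹
    rw [← hι, ← hinv, hρ, h2] at h6
    exact h6.symm

theorem rotation_identity (m : ℕ) (J : Finset ℕ) :
    QSym (mulMultiset (cyclicGroup (m + 1)) (invDescentClass (m + 1) J))
      = QSym (mulMultiset (invDescentClass (m + 1) J) (cyclicGroup (m + 1))) := by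
  set D := invDescentClass (m + 1) J with hD
  have hinj : Set.InjOn (fun k : Fin (m + 1) => (Equiv.addRight k : Equiv.Perm (Fin (m + 1))))
      (Finset.univ : Finset (Fin (m + 1))) := by
    intro a _ b _ hab
    have := congrArg (fun e : Equiv.Perm (Fin (m + 1)) => e 0) hab
    simpa using this
  have e1 : QSym (mulMultiset (cyclicGroup (m + 1)) D)
      = ∑ p ∈ (Finset.univ : Finset (Fin (m + 1))) ×ˢ D,
        fundamental (m + 1) (Des (Equiv.addRight p.1 * p.2)) := by
    unfold QSym mulMultiset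
    rw [Multiset.map_map]
    change ∑ p ∈ cyclicGroup (m + 1) ×ˢ D, fundamental (m + 1) (Des (p.1 * p.2)) = _
    rw [Finset.sum_product, Finset.sum_product, cyclicGroup_eq, Finset.sum_image hinj]
  have e2 : QSym (mulMultiset D (cyclicGroup (m + 1)))
      = ∑ p ∈ (Finset.univ : Finset (Fin (m + 1))) ×ˢ D,
        fundamental (m + 1) (Des (p.2 * Equiv.addRight p.1)) := by
    unfold QSym mulMultiset
    rw [Multiset.map_map]
    change ∑ p ∈ D ×ˢ cyclicGroup (m + 1), fundamental (m + 1) (Des (p.1 * p.2)) = _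
    rw [Finset.sum_product_right, Finset.sum_product, cyclicGroup_eq, Finset.sum_image hinj]
  have hS : (Finset.univ : Finset (Fin (m + 1))) ×ˢ D
      = (Finset.univ : Finset (Fin (m + 1) × Equiv.Perm (Fin (m + 1)))).filter
        (fun p => p.2 (Fin.last m) = Fin.last m ∧ Des p.2⁻¹ = J) := by
    ext ⟨a, b⟩
    rw [hD, invDescentClass_eq]
    simp
  rw [e1, e2, hS]
  have h := congrArg (fun M : Multiset (Finset ℕ) => (M.map (fundamental (m + 1))).sum)
    (map_des_eq m J)
  simp only [Multiset.map_map] at h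
  exact h

end Pool.Agent.Work.MP_f75e32_co
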